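import Mathlib
import Pool.Agent.Helper98.DeltaRegCore

open Cardinal

universe u

namespace Pool.Agent.Results.MP_e5b57d_lc.UncountableMonochromatic

/-- The set `2^κ` of all functions `κ → 2`; here `κ` is identified, as usual, with the set of all
ordinals below its initial ordinal `κ.ord`. -/
abbrev Pt (κ : Cardinal.{u}) : Type (u + 1) := Set.Iio κ.ord → Bool

/-- `Δ(x, y) = min {i < κ : x(i) ≠ y(i)}`, as an ordinal (used for `x ≠ y` only). -/
noncomputable def Delta {κ : Cardinal.{u}} (x y : Pt κ) : Ordinal.{u} :=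
  sInf {i : Ordinal.{u} | ∃ h : i < κ.ord, x ⟨i, h⟩ ≠ y ⟨i, h⟩}

/-- `Y` is `c`-monochromatic: `c` is constant on the two-element subsets of `Y`. -/
def IsMonochromatic {κ : Cardinal.{u}} (c : Sym2 (Pt κ) → Set.Iio κ.ord) (Y : Set (Pt κ)) : Prop :=
  ∃ γ : Set.Iio κ.ord, ∀ x ∈ Y, ∀ y ∈ Y, x ≠ y → c s(x, y) = γ

/-- `c : [2^κ]^2 → κ` is almost `Δ`-regressive, as witnessed by the cardinal `μ < κ`. -/
def AlmostDeltaRegressive {κ : Cardinal.{u}} (c : Sym2 (Pt κ) → Set.Iio κ.ord)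
    (μ : Cardinal.{u}) : Prop :=
  μ < κ ∧ ∀ x y : Pt κ, x ≠ y → (c s(x, y) : Ordinal.{u}) < max (Delta x y) μ.ord

/-- The least `θ` with `2^μ < 2^θ` is regular. -/
theorem regular_of_least (μ θ : Cardinal.{u}) (hμ : ℵ₀ ≤ μ)
    (hlt : (2 : Cardinal.{u}) ^ μ < 2 ^ θ) (hmin : ∀ ρ < θ, (2 : Cardinal.{u}) ^ ρ ≤ 2 ^ μ) :
    θ.IsRegular := by
  have hμθ : μ < θ := by
    by_contra h
    exact absurd (Cardinal.power_le_power_left two_ne_zero (not_lt.1 h)) (not_le.2 hlt)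
  have hθ : ℵ₀ ≤ θ := hμ.trans hμθ.le
  refine ⟨hθ, ?_⟩
  by_contra hcof
  rw [not_le] at hcof
  obtain ⟨s, hs, hsc⟩ := Order.exists_cof_eq θ.ord.ToType
  rw [Ordinal.cof_toType] at hsc
  have hIic : ∀ y : θ.ord.ToType, #(Set.Iic y) < θ := by
    intro y
    have h1 : #(Set.Iio y) < θ := by
      have h := Cardinal.mk_Iio_lt y (by simp)
      simpa using h
    have h2 : (Set.Iic y) = insert y (Set.Iio y) := by
      ext z
      simp [le_iff_lt_or_eq, or_comm]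
    rw [h2]
    refine (Cardinal.mk_insert_le).trans_lt ?_
    exact Cardinal.add_lt_of_lt hθ h1 (Cardinal.one_lt_aleph0.trans_le hθ)
  have h1 : θ ≤ Cardinal.sum fun y : s => #(Set.Iic y.1) := by
    have h2 : (⋃ y : s, Set.Iic y.1) = Set.univ := by
      apply Set.eq_univ_of_forall
      intro x
      obtain ⟨y, hy, hxy⟩ := hs x
      exact Set.mem_iUnion.2 ⟨⟨y, hy⟩, hxy⟩
    calc θ = #θ.ord.ToType := by simp
      _ = #(Set.univ : Set θ.ord.ToType) := by simp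
      _ = #(⋃ y : s, Set.Iic y.1) := by rw [h2]
      _ ≤ _ := Cardinal.mk_iUnion_le_sum_mk
  have h3 : (2 : Cardinal.{u}) ^ θ ≤ 2 ^ μ := by
    calc (2 : Cardinal.{u}) ^ θ ≤ 2 ^ (Cardinal.sum fun y : s => #(Set.Iic y.1)) :=
          Cardinal.power_le_power_left two_ne_zero h1
      _ = Cardinal.prod fun y : s => (2 : Cardinal.{u}) ^ #(Set.Iic y.1) := Cardinal.power_sum _ _
      _ ≤ Cardinal.prod fun _ : s => (2 : Cardinal.{u}) ^ μ :=
          Cardinal.prod_le_prod _ _ (fun y => hmin _ (hIic y))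
      _ = (2 ^ μ) ^ #s := by rw [Cardinal.prod_const']
      _ = (2 ^ #s) ^ μ := by rw [← Cardinal.power_mul, ← Cardinal.power_mul, mul_comm]
      _ ≤ (2 ^ μ) ^ μ := Cardinal.power_le_power_right (hmin _ (hsc ▸ hcof))
      _ = 2 ^ μ := by rw [← Cardinal.power_mul, Cardinal.mul_eq_self hμ]
  exact absurd h3 (not_le.2 hlt)

/-- An initial segment of `Set.Iio o`. -/
def iioEquiv (o : Ordinal.{u}) (β : Set.Iio o) : (Set.Iio β : Set (Set.Iio o)) ≃ Set.Iio (β : Ordinal.{u}) where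
  toFun x := ⟨x.1.1, x.2⟩
  invFun y := ⟨⟨y.1, Set.mem_Iio.2 (lt_trans (Set.mem_Iio.1 y.2) (Set.mem_Iio.1 β.2))⟩, y.2⟩
  left_inv _ := rfl
  right_inv _ := rfl

/-- **Main result.** Let `κ` be an uncountable cardinal (regular or not) with `2^μ < 2^κ` for all
`μ < κ`.  Every almost `Δ`-regressive colouring `c : [2^κ]^2 → κ` has an uncountable
monochromatic set; in fact, if `μ` witnesses that `c` is almost `Δ`-regressive, there is a
monochromatic set whose cardinality exceeds every cardinal `ρ` with `2^ρ ≤ 2^μ`. -/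
theorem result (κ : Cardinal.{u}) (hκ : ℵ₀ < κ)
    (hpow : ∀ μ < κ, (2 : Cardinal.{u}) ^ μ < 2 ^ κ)
    (c : Sym2 (Pt κ) → Set.Iio κ.ord) (μ : Cardinal.{u}) (hc : AlmostDeltaRegressive c μ) :
    ∃ Y : Set (Pt κ), IsMonochromatic c Y ∧ ℵ₀ < #Y ∧
      ∀ ρ : Cardinal.{u}, (2 : Cardinal.{u}) ^ ρ ≤ 2 ^ μ → Cardinal.lift.{u + 1} ρ < #Y := by
  obtain ⟨hμκ, hc⟩ := hc
  -- replace `μ` by an infinite cardinal
  obtain ⟨ν, hν, hνκ, hμν⟩ : ∃ ν : Cardinal.{u}, ℵ₀ ≤ ν ∧ ν < κ ∧ μ ≤ ν :=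
    ⟨max ℵ₀ μ, le_max_left _ _, max_lt hκ hμκ, le_max_right _ _⟩
  -- the least `θ` with `2^ν < 2^θ`
  obtain ⟨θ, hθ, hmin⟩ : ∃ θ : Cardinal.{u}, (2 : Cardinal.{u}) ^ ν < 2 ^ θ ∧
      ∀ ρ < θ, (2 : Cardinal.{u}) ^ ρ ≤ 2 ^ ν := by
    have hne : ({θ : Cardinal.{u} | (2 : Cardinal.{u}) ^ ν < 2 ^ θ}).Nonempty := ⟨κ, hpow ν hνκ⟩
    refine ⟨sInf {θ : Cardinal.{u} | (2 : Cardinal.{u}) ^ ν < 2 ^ θ}, csInf_mem hne, ?_⟩
    intro ρ hρ
    by_contra h
    exact notMem_of_lt_csInf' hρ (not_le.1 h)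
  have hreg : θ.IsRegular := regular_of_least ν θ hν hθ hmin
  have hνθ : ν < θ := by
    by_contra h
    exact absurd (Cardinal.power_le_power_left two_ne_zero (not_lt.1 h)) (not_le.2 hθ)
  have hθκ : θ ≤ κ := by
    by_contra h
    exact absurd (hmin κ (not_le.1 h)) (not_le.2 (hpow ν hνκ))
  have hordle : θ.ord ≤ κ.ord := Cardinal.ord_le_ord.2 hθκ
  -- the index types
  let T : Type (u + 1) := Set.Iio θ.ord
  have hTcard : #T = Cardinal.lift.{u + 1} θ := by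
    show #(Set.Iio θ.ord) = _
    rw [Cardinal.mk_Iio_ordinal, Cardinal.card_ord]
  let A : Type (u + 1) := Set.Iio ν.ord
  have hAcard : #A = Cardinal.lift.{u + 1} ν := by
    show #(Set.Iio ν.ord) = _
    rw [Cardinal.mk_Iio_ordinal, Cardinal.card_ord]
  have hAinf : Infinite A := by
    rw [Cardinal.infinite_iff, hAcard]
    simpa using hν
  have hlift : ∀ ρ : Cardinal.{u}, (2 : Cardinal.{u + 1}) ^ Cardinal.lift.{u + 1} ρ =
      Cardinal.lift.{u + 1} ((2 : Cardinal.{u}) ^ ρ) := by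
    intro ρ
    rw [Cardinal.lift_power, Cardinal.lift_two]
  have hIio : ∀ β : T, #(Set.Iio β) = Cardinal.lift.{u + 1} (β.1.card) := by
    intro β
    rw [Cardinal.mk_congr (iioEquiv θ.ord β), Cardinal.mk_Iio_ordinal]
  -- extending points
  let ι : (T → Bool) → Pt κ := fun x i => if h : i.1 < θ.ord then x ⟨i.1, h⟩ else false
  have hιlt : ∀ (x : T → Bool) (i : Ordinal.{u}) (h : i < θ.ord) (h' : i < κ.ord),
      ι x ⟨i, h'⟩ = x ⟨i, h⟩ := fun x i h h' => dif_pos h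
  have hιinj : Function.Injective ι := by
    intro x y hxy
    funext i
    have := congrFun hxy ⟨i.1, lt_of_lt_of_le i.2 hordle⟩
    rwa [hιlt x i.1 i.2, hιlt y i.1 i.2] at this
  have hΔlt : ∀ x y : T → Bool, x ≠ y → Delta (ι x) (ι y) < θ.ord := by
    intro x y hxy
    obtain ⟨i, hi⟩ := Function.ne_iff.1 hxy
    refine lt_of_le_of_lt (csInf_le' ⟨lt_of_lt_of_le i.2 hordle, ?_⟩) i.2
    rw [hιlt x i.1 i.2, hιlt y i.1 i.2]
    exact hi
  have hΔeq : ∀ (x y : T → Bool) (i : T), i.1 < Delta (ι x) (ι y) → x i = y i := by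
    intro x y i hi
    by_contra h
    have hmem : i.1 ∈ {j : Ordinal.{u} | ∃ h : j < κ.ord, ι x ⟨j, h⟩ ≠ ι y ⟨j, h⟩} := by
      refine ⟨lt_of_lt_of_le i.2 hordle, ?_⟩
      rw [hιlt x i.1 i.2, hιlt y i.1 i.2]
      exact h
    exact absurd (csInf_le' hmem) (not_le.2 hi)
  have hνord : μ.ord ≤ ν.ord := Cardinal.ord_le_ord.2 hμν
  have hνθord : ν.ord < θ.ord := Cardinal.ord_lt_ord.2 hνθ
  have hclt : ∀ x y : T → Bool, x ≠ y → (c s(ι x, ι y)).1 < θ.ord := by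
    intro x y hxy
    exact lt_of_lt_of_le (hc _ _ (hιinj.ne hxy))
      (max_le (hΔlt x y hxy).le (hνord.trans hνθord.le))
  have h0 : (0 : Ordinal.{u}) < θ.ord := lt_of_le_of_lt (zero_le) hνθord
  let c' : (T → Bool) → (T → Bool) → T := fun x y =>
    if h : (c s(ι x, ι y)).1 < θ.ord then ⟨_, h⟩ else ⟨0, h0⟩
  have hc'val : ∀ x y : T → Bool, x ≠ y → (c' x y).1 = (c s(ι x, ι y)).1 := by
    intro x y hxy
    have h := hclt x y hxy
    simp only [c', dif_pos h]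
  obtain ⟨γ, Y, hY, hmono⟩ := Pool.Agent.Helper98.DeltaReg.core_mono (T := T) c' ⟨ν.ord, hνθord⟩ A
    (by rw [hAcard, hTcard, hlift, hlift]; exact Cardinal.lift_lt.2 hθ)
    (by
      intro ρ hρ
      rw [hTcard] at hρ
      obtain ⟨ρ', hρ', rfl⟩ := Cardinal.lt_lift_iff.1 hρ
      rw [hAcard, hlift, hlift]
      exact Cardinal.lift_le.2 (hmin ρ' hρ'))
    (by
      intro β
      rw [hIio, hTcard]
      exact Cardinal.lift_lt.2 (Cardinal.lt_ord.1 β.2))
    (by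
      intro ρ hρ
      rw [hTcard] at hρ
      obtain ⟨ρ', hρ', rfl⟩ := Cardinal.lt_lift_iff.1 hρ
      refine ⟨⟨ρ'.ord, Cardinal.ord_lt_ord.2 hρ'⟩, ?_⟩
      rw [hIio, Cardinal.card_ord])
    (by rw [hTcard]; exact hreg.lift)
    (by
      intro x y
      simp only [c', Sym2.eq_swap])
    (by
      intro x y hxy
      have h1 := hc _ _ (hιinj.ne hxy)
      rcases lt_max_iff.1 h1 with h | h
      · right
        intro i hi
        apply hΔeq
        refine lt_of_le_of_lt ?_ h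
        rw [← hc'val x y hxy]
        exact hi
      · left
        show (c' x y).1 < ν.ord
        rw [hc'val x y hxy]
        exact lt_of_lt_of_le h hνord)
  have hYcard : Cardinal.lift.{u + 1} θ ≤ #(ι '' Y) := by
    rw [Cardinal.mk_image_eq hιinj, ← hTcard]
    exact hY
  refine ⟨ι '' Y, ⟨⟨γ.1, lt_of_lt_of_le γ.2 hordle⟩, ?_⟩, ?_, ?_⟩
  · rintro _ ⟨x, hx, rfl⟩ _ ⟨y, hy, rfl⟩ hne
    have hxy : x ≠ y := fun h => hne (by rw [h])
    apply Subtype.ext
    rw [← hc'val x y hxy, hmono x hx y hy hxy]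
  · refine lt_of_lt_of_le ?_ hYcard
    rw [← Cardinal.lift_aleph0.{u + 1, u}, Cardinal.lift_lt]
    exact lt_of_le_of_lt hν hνθ
  · intro ρ hρ
    refine lt_of_lt_of_le ?_ hYcard
    rw [Cardinal.lift_lt]
    by_contra h
    have h1 : (2 : Cardinal.{u}) ^ θ ≤ 2 ^ ν :=
      (Cardinal.power_le_power_left two_ne_zero (not_lt.1 h)).trans
        (hρ.trans (Cardinal.power_le_power_left two_ne_zero hμν))
    exact absurd h1 (not_le.2 hθ)

end Pool.Agent.Results.MP_e5b57d_lc.UncountableMonochromatic
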